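import Mathlib

/-!
MP_a8cd80_co: a lower bound for the frequency of the letter `0` in infinite binary words avoiding
abelian fourth powers. The letter `0` is `false`, the letter `1` is `true`.
-/

namespace Pool.Agent.Results.MP_a8cd80_co.FreqLower

open Filter

/-- The factor `w_i w_{i+1} ... w_{i+n-1}` of the infinite word `w`. -/
def factor (w : ℕ → Bool) (i n : ℕ) : List Bool := (List.range n).map (fun j => w (i + j))

/-- An abelian fourth power: `x₁x₂x₃x₄` with `x₁` nonempty and `x₁, x₂, x₃, x₄` pairwise abelian
equivalent, i.e. permutations of each other. -/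
def IsAbelianFourthPower (u : List Bool) : Prop :=
  ∃ x₁ x₂ x₃ x₄ : List Bool, x₁ ≠ [] ∧ x₁.Perm x₂ ∧ x₁.Perm x₃ ∧ x₁.Perm x₄ ∧
    u = x₁ ++ x₂ ++ x₃ ++ x₄

/-- `w` avoids abelian fourth powers: no factor of `w` is one. -/
def Avoids (w : ℕ → Bool) : Prop := ∀ i n, ¬ IsAbelianFourthPower (factor w i n)

/-- The frequency of the letter `0` (`false`) in `w` exists and equals `α`. -/
def HasFreqZero (w : ℕ → Bool) (α : ℝ) : Prop :=
  Tendsto (fun n : ℕ => ((factor w 0 n).count false : ℝ) / n) atTop (nhds α)

/-- number of zeros among the first `p` entries -/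
def cnt : ℕ → List Bool → ℕ
  | 0, _ => 0
  | _ + 1, [] => 0
  | p + 1, b :: l => (match b with | false => 1 | true => 0) + cnt p l

/-- does `l` (newest letter first) start with an abelian fourth power of period `p`? -/
def badAt (p : ℕ) (l : List Bool) : Bool :=
  let l1 := l.drop p
  let l2 := l1.drop p
  let l3 := l2.drop p
  (cnt p l == cnt p l1) && ((cnt p l == cnt p l2) && (cnt p l == cnt p l3))

/-- is some period `1 ≤ p ≤ q` bad? -/
def badUpTo : ℕ → List Bool → Bool
  | 0, _ => false
  | q + 1, l => badUpTo q l || badAt (q + 1) l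

/-- Depth first search: `true` if every extension of the reversed word `l` (of length `n`, with `z`
zeros) by at most `k` letters either creates an abelian fourth power or passes through a word, longer
than `l`, in which the proportion of zeros is at least `7/20`. -/
def search : ℕ → ℕ → ℕ → List Bool → Bool
  | 0, _, _, _ => false
  | k + 1, n, z, l =>
    (Nat.ble (7 * (n + 1)) (20 * z) ||
      (badUpTo ((n + 1) / 4) (true :: l) || search k (n + 1) z (true :: l))) &&
    (Nat.ble (7 * (n + 1)) (20 * (z + 1)) ||
      (badUpTo ((n + 1) / 4) (false :: l) || search k (n + 1) (z + 1) (false :: l)))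

lemma cnt_eq (p : ℕ) (l : List Bool) : cnt p l = (l.take p).count false := by
  induction p generalizing l with
  | zero => simp [cnt]
  | succ p ih =>
    cases l with
    | nil => simp [cnt]
    | cons b l =>
      cases b <;> simp [cnt, ih, add_comm]

/-- The reversed factor. -/
lemma factor_succ (w : ℕ → Bool) (i n : ℕ) : factor w i (n + 1) = factor w i n ++ [w (i + n)] := by
  unfold factor
  rw [List.range_succ, List.map_append]
  rfl

lemma factor_length (w : ℕ → Bool) (i n : ℕ) : (factor w i n).length = n := by
  unfold factor
  simp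

lemma factor_add (w : ℕ → Bool) (i n m : ℕ) :
    factor w i (n + m) = factor w i n ++ factor w (i + n) m := by
  induction m with
  | zero => simp [factor]
  | succ m ih =>
    rw [← add_assoc, factor_succ, ih, factor_succ, List.append_assoc, add_assoc]

/-- the newest `p` letters of the reversed factor -/
lemma drop_reverse (w : ℕ → Bool) (i n p : ℕ) (hp : p ≤ n) :
    (factor w i n).reverse.drop p = (factor w i (n - p)).reverse := by
  obtain ⟨m, rfl⟩ := Nat.exists_eq_add_of_le hp
  rw [Nat.add_sub_cancel_left, add_comm p m, factor_add, List.reverse_append]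
  rw [List.drop_left' (by simp [factor_length])]

lemma take_reverse (w : ℕ → Bool) (i n p : ℕ) (hp : p ≤ n) :
    (factor w i n).reverse.take p = (factor w (i + (n - p)) p).reverse := by
  obtain ⟨m, rfl⟩ := Nat.exists_eq_add_of_le hp
  rw [Nat.add_sub_cancel_left, add_comm p m, factor_add, List.reverse_append]
  rw [List.take_left' (by simp [factor_length])]

lemma perm_of_count (x y : List Bool) (hl : x.length = y.length)
    (hc : x.count false = y.count false) : x.Perm y := by
  rw [List.perm_iff_count]
  intro b
  cases b with
  | false => exact hc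
  | true =>
    have h1 := List.count_false_add_count_true x
    have h2 := List.count_false_add_count_true y
    omega

lemma not_badAt (w : ℕ → Bool) (hw : Avoids w) (i n p : ℕ) (hp : 0 < p) (hn : 4 * p ≤ n) :
    badAt p (factor w i n).reverse = false := by
  by_contra hcon
  rw [Bool.not_eq_false] at hcon
  unfold badAt at hcon
  simp only [Bool.and_eq_true, beq_iff_eq] at hcon
  obtain ⟨h1, h2, h3⟩ := hcon
  rw [drop_reverse w i n p (by omega)] at h1 h2 h3
  rw [drop_reverse w i (n - p) p (by omega)] at h2 h3
  rw [drop_reverse w i (n - p - p) p (by omega)] at h3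
  rw [cnt_eq, cnt_eq, take_reverse w i n p (by omega)] at h1 h2 h3
  rw [take_reverse w i (n - p) p (by omega)] at h1
  rw [take_reverse w i (n - p - p) p (by omega)] at h2
  rw [take_reverse w i (n - p - p - p) p (by omega)] at h3
  simp only [List.count_reverse] at h1 h2 h3
  apply hw (i + (n - p - p - p - p)) (p + p + p + p)
  set a := i + (n - p - p - p - p) with ha
  have e1 : i + (n - p) = a + p + p + p := by omega
  have e2 : i + (n - p - p) = a + p + p := by omega
  have e3 : i + (n - p - p - p) = a + p := by omega
  rw [e1, e2] at h1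
  rw [e1, e3] at h2
  rw [e1] at h3
  refine ⟨factor w a p, factor w (a + p) p, factor w (a + p + p) p, factor w (a + p + p + p) p,
    ?_, ?_, ?_, ?_, ?_⟩
  · intro h
    have := congrArg List.length h
    rw [factor_length] at this
    simp at this
    omega
  · exact perm_of_count _ _ (by simp [factor_length]) (by omega)
  · exact perm_of_count _ _ (by simp [factor_length]) (by omega)
  · exact perm_of_count _ _ (by simp [factor_length]) (by omega)
  · rw [factor_add, factor_add, factor_add]
    simp [add_assoc]

lemma not_badUpTo (w : ℕ → Bool) (hw : Avoids w) (i n q : ℕ) (hn : 4 * q ≤ n) :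
    badUpTo q (factor w i n).reverse = false := by
  induction q with
  | zero => rfl
  | succ q ih =>
    rw [badUpTo, ih (by omega), not_badAt w hw i n (q + 1) (by omega) hn]
    rfl

lemma search_sound (w : ℕ → Bool) (hw : Avoids w) (i : ℕ) : ∀ k n z,
    z = (factor w i n).count false →
    search k n z (factor w i n).reverse = true →
    ∃ m, n < m ∧ m ≤ n + k ∧ 7 * m ≤ 20 * (factor w i m).count false := by
  intro k
  induction k with
  | zero =>
    intro n z _ h
    simp [search] at h
  | succ k ih =>
    intro n z hz h
    have hrev : (factor w i (n + 1)).reverse = w (i + n) :: (factor w i n).reverse := by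
      rw [factor_succ]; simp
    have hcount : (factor w i (n + 1)).count false = z + (if w (i + n) = false then 1 else 0) := by
      rw [factor_succ, List.count_append, ← hz]
      cases w (i + n) <;> simp
    have hnb := not_badUpTo w hw i (n + 1) ((n + 1) / 4) (by omega)
    rw [hrev] at hnb
    simp only [search, Bool.and_eq_true] at h
    obtain ⟨h1, h2⟩ := h
    cases hb : w (i + n) with
    | true =>
      rw [hb] at hnb hrev hcount
      simp only [Bool.true_eq_false, if_false, add_zero] at hcount
      rw [hnb, Bool.false_or, Bool.or_eq_true, ← hrev] at h1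
      rcases h1 with h1 | h1
      · refine ⟨n + 1, by omega, by omega, ?_⟩
        have := Nat.le_of_ble_eq_true h1
        rw [hcount]
        exact this
      · obtain ⟨m, hm1, hm2, hm3⟩ := ih (n + 1) z hcount.symm h1
        exact ⟨m, by omega, by omega, hm3⟩
    | false =>
      rw [hb] at hnb hrev hcount
      simp only [if_true] at hcount
      rw [hnb, Bool.false_or, Bool.or_eq_true, ← hrev] at h2
      rcases h2 with h2 | h2
      · refine ⟨n + 1, by omega, by omega, ?_⟩
        have := Nat.le_of_ble_eq_true h2
        rw [hcount]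
        exact this
      · obtain ⟨m, hm1, hm2, hm3⟩ := ih (n + 1) (z + 1) hcount.symm h2
        exact ⟨m, by omega, by omega, hm3⟩

theorem search_70 : search 70 0 0 [] = true := by decide +kernel

lemma block (w : ℕ → Bool) (hw : Avoids w) (i : ℕ) :
    ∃ m, 0 < m ∧ 7 * m ≤ 20 * (factor w i m).count false := by
  obtain ⟨m, h1, _, h3⟩ := search_sound w hw i 70 0 0 (by simp [factor])
    (by simpa [factor] using search_70)
  exact ⟨m, h1, h3⟩

lemma many (w : ℕ → Bool) (hw : Avoids w) (N : ℕ) :
    ∃ M, N ≤ M ∧ 7 * M ≤ 20 * (factor w 0 M).count false := by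
  induction N with
  | zero => exact ⟨0, le_rfl, by simp⟩
  | succ N ih =>
    obtain ⟨M, h1, h2⟩ := ih
    obtain ⟨m, h3, h4⟩ := block w hw (0 + M)
    refine ⟨M + m, by omega, ?_⟩
    rw [factor_add, List.count_append]
    omega

theorem result (w : ℕ → Bool) (hw : Avoids w) (α : ℝ) (h : HasFreqZero w α) :
    7 / 20 ≤ α := by
  by_contra hcon
  push Not at hcon
  have h2 := h.eventually (gt_mem_nhds hcon)
  obtain ⟨N, hN⟩ := eventually_atTop.mp h2
  obtain ⟨M, hM1, hM2⟩ := many w hw (N + 1)
  have h3 := hN M (by omega)
  have hM0 : (0:ℝ) < M := by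
    have : 0 < M := by omega
    exact_mod_cast this
  have h4 : (7 * M : ℝ) ≤ 20 * ((factor w 0 M).count false : ℝ) := by exact_mod_cast hM2
  rw [div_lt_div_iff₀ hM0 (by norm_num)] at h3
  linarith

end Pool.Agent.Results.MP_a8cd80_co.FreqLower
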